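import Mathlib

set_option autoImplicit false
set_option linter.unusedSectionVars false
open Set Filter Topology

namespace Pool.Agent.H.MP_a0c03c_an

structure Dat (C : Type) [NormedCommRing C] [NormedAlgebra ℂ C] where
  ε : C →ₐ[ℂ] ℂ
  s : C
  ε_le : ∀ g, ‖ε g‖ ≤ ‖g‖
  ε_s : ε s = 0
  s_le : ‖s‖ ≤ 1

variable {C : Type} [NormedCommRing C] [NormedAlgebra ℂ C] (D : Dat C)
  {E : Type} [NormedAddCommGroup E] [NormedSpace ℂ E]

noncomputable def Dat.K : Submodule ℂ C := LinearMap.ker D.ε.toLinearMap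

theorem Dat.mem_K {D : Dat C} {f : C} : f ∈ D.K ↔ D.ε f = 0 := Iff.rfl

theorem Dat.K_closed : IsClosed (D.K : Set C) :=
  isClosed_eq (D.ε.toLinearMap.mkContinuous 1 fun g => by simpa using D.ε_le g).continuous
    continuous_const

def Alg (_ : Metric.closedBall (0 : E) 1) : Type := D.K × C × E

variable (e : Metric.closedBall (0 : E) 1)

noncomputable instance : NormedAddCommGroup (Alg D e) :=
  inferInstanceAs (NormedAddCommGroup (D.K × C × E))
noncomputable instance : NormedSpace ℂ (Alg D e) := inferInstanceAs (NormedSpace ℂ (D.K × C × E))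
instance [CompleteSpace C] [CompleteSpace E] : CompleteSpace (Alg D e) :=
  haveI := D.K_closed.completeSpace_coe
  inferInstanceAs (CompleteSpace (D.K × C × E))

variable {D e}

noncomputable def Alg.f (a : Alg D e) : C := (a : D.K × C × E).1
noncomputable def Alg.g (a : Alg D e) : C := (a : D.K × C × E).2.1
noncomputable def Alg.l (a : Alg D e) : E := (a : D.K × C × E).2.2
theorem Alg.ε_f (a : Alg D e) : D.ε a.f = 0 := (a : D.K × C × E).1.2

noncomputable def mk (f : C) (hf : D.ε f = 0) (g : C) (l : E) : Alg D e := ((⟨f, hf⟩, g, l) : D.K × C × E)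

@[simp] theorem mk_f (f : C) (hf : D.ε f = 0) (g : C) (l : E) : (mk f hf g l : Alg D e).f = f := rfl
@[simp] theorem mk_g (f : C) (hf : D.ε f = 0) (g : C) (l : E) : (mk f hf g l : Alg D e).g = g := rfl
@[simp] theorem mk_l (f : C) (hf : D.ε f = 0) (g : C) (l : E) : (mk f hf g l : Alg D e).l = l := rfl

theorem Alg.ext {a b : Alg D e} (h1 : a.f = b.f) (h2 : a.g = b.g) (h3 : a.l = b.l) : a = b :=
  Prod.ext (Subtype.ext h1) (Prod.ext h2 h3)

@[simp] theorem add_f (a b : Alg D e) : (a + b).f = a.f + b.f := rfl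
@[simp] theorem add_g (a b : Alg D e) : (a + b).g = a.g + b.g := rfl
@[simp] theorem add_l (a b : Alg D e) : (a + b).l = a.l + b.l := rfl
@[simp] theorem sub_f (a b : Alg D e) : (a - b).f = a.f - b.f := rfl
@[simp] theorem sub_g (a b : Alg D e) : (a - b).g = a.g - b.g := rfl
@[simp] theorem sub_l (a b : Alg D e) : (a - b).l = a.l - b.l := rfl
@[simp] theorem zero_f : (0 : Alg D e).f = 0 := rfl
@[simp] theorem zero_g : (0 : Alg D e).g = 0 := rfl
@[simp] theorem zero_l : (0 : Alg D e).l = 0 := rfl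
@[simp] theorem smul_f (c : ℂ) (a : Alg D e) : (c • a).f = c • a.f := rfl
@[simp] theorem smul_g (c : ℂ) (a : Alg D e) : (c • a).g = c • a.g := rfl
@[simp] theorem smul_l (c : ℂ) (a : Alg D e) : (c • a).l = c • a.l := rfl
theorem norm_def (a : Alg D e) : ‖a‖ = max ‖a.f‖ (max ‖a.g‖ ‖a.l‖) := rfl
theorem f_le (a : Alg D e) : ‖a.f‖ ≤ ‖a‖ := le_max_left _ _
theorem g_le (a : Alg D e) : ‖a.g‖ ≤ ‖a‖ := (le_max_left _ _).trans (le_max_right _ _)
theorem l_le (a : Alg D e) : ‖a.l‖ ≤ ‖a‖ := (le_max_right _ _).trans (le_max_right _ _)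

noncomputable instance : Mul (Alg D e) :=
  ⟨fun a b => mk ((2⁻¹ : ℂ) • (a.f * b.f + D.s * a.g * b.g)) (by simp [a.ε_f, D.ε_s])
    ((2⁻¹ : ℂ) • (a.f * b.g + a.g * b.f)) ((2⁻¹ * D.ε a.g * D.ε b.g) • e.1)⟩

theorem mul_f (a b : Alg D e) : (a * b).f = (2⁻¹ : ℂ) • (a.f * b.f + D.s * a.g * b.g) := rfl
theorem mul_g (a b : Alg D e) : (a * b).g = (2⁻¹ : ℂ) • (a.f * b.g + a.g * b.f) := rfl
theorem mul_l (a b : Alg D e) : (a * b).l = (2⁻¹ * D.ε a.g * D.ε b.g) • e.1 := rfl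
theorem ε_mul_g (a b : Alg D e) : D.ε (a * b).g = 0 := by simp [mul_g, Alg.ε_f]

theorem half (x y : C) {t : ℝ} (hx : ‖x‖ ≤ t) (hy : ‖y‖ ≤ t) : ‖(2⁻¹ : ℂ) • (x + y)‖ ≤ t := by
  rw [norm_smul, norm_inv, Complex.norm_ofNat]
  linarith [norm_add_le x y]

theorem nm {x y : C} {s t : ℝ} (hx : ‖x‖ ≤ s) (hy : ‖y‖ ≤ t) : ‖x * y‖ ≤ s * t :=
  (norm_mul_le _ _).trans (mul_le_mul hx hy (norm_nonneg _) ((norm_nonneg _).trans hx))

noncomputable instance : NonUnitalNormedCommRing (Alg D e) where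
  __ := (inferInstance : NormedAddCommGroup (Alg D e))
  left_distrib a b c := Alg.ext (by simp only [mul_f, add_f, add_g, Algebra.smul_def]; ring)
    (by simp only [mul_g, add_f, add_g, Algebra.smul_def]; ring)
    (by simp only [mul_l, add_l, add_g, map_add]; module)
  right_distrib a b c := Alg.ext (by simp only [mul_f, add_f, add_g, Algebra.smul_def]; ring)
    (by simp only [mul_g, add_f, add_g, Algebra.smul_def]; ring)
    (by simp only [mul_l, add_l, add_g, map_add]; module)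
  zero_mul a := Alg.ext (by simp [mul_f]) (by simp [mul_g]) (by simp [mul_l])
  mul_zero a := Alg.ext (by simp [mul_f]) (by simp [mul_g]) (by simp [mul_l])
  mul_assoc a b c := Alg.ext (by simp only [mul_f, mul_g, Algebra.smul_def]; ring)
    (by simp only [mul_f, mul_g, Algebra.smul_def]; ring)
    (by simp only [mul_l, ε_mul_g, mul_zero, zero_mul])
  mul_comm a b := Alg.ext (by simp only [mul_f]; ring_nf) (by simp only [mul_g]; ring_nf)
    (by simp only [mul_l]; ring_nf)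
  norm_mul_le a b := by
    rw [norm_def]
    refine max_le (half _ _ (nm (f_le a) (f_le b)) ?_) (max_le (half _ _ (nm (f_le a) (g_le b))
      (nm (g_le a) (f_le b))) ?_)
    · simpa using nm (nm D.s_le (g_le a)) (g_le b)
    · rw [mul_l, norm_smul, norm_mul, norm_mul, norm_inv, Complex.norm_ofNat]
      have h1 := mul_le_mul ((D.ε_le _).trans (g_le a)) ((D.ε_le _).trans (g_le b))
        (norm_nonneg _) (norm_nonneg _)
      have h2 : ‖e.1‖ ≤ 1 := mem_closedBall_zero_iff.1 e.2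
      have h3 : 0 ≤ ‖D.ε a.g‖ * ‖D.ε b.g‖ := by positivity
      nlinarith [norm_nonneg e.1]

instance : IsScalarTower ℂ (Alg D e) (Alg D e) :=
  ⟨fun c a b => Alg.ext
    (by simp only [smul_eq_mul, mul_f, smul_f, smul_g, Algebra.smul_def]; ring)
    (by simp only [smul_eq_mul, mul_g, smul_f, smul_g, Algebra.smul_def]; ring)
    (by simp only [smul_eq_mul, mul_l, smul_l, smul_g, map_smul]; module)⟩

instance : SMulCommClass ℂ (Alg D e) (Alg D e) :=
  ⟨fun c a b => by rw [smul_eq_mul, smul_eq_mul, mul_comm a, mul_comm a, smul_mul_assoc]⟩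

/-- Finite sums of products of controlled size. -/
def Rep {A : Type} [NonUnitalNormedRing A] (S : Set A) (x : A) (t : ℝ) : Prop :=
  ∃ l : List (A × A), (∀ p ∈ l, p.1 ∈ S ∧ p.2 ∈ S) ∧ (l.map fun p => p.1 * p.2).sum = x ∧
    (l.map fun p => ‖p.1‖ * ‖p.2‖).sum ≤ t

section
variable {A : Type} [NonUnitalNormedRing A] {S : Set A}

theorem Rep.zero : Rep S 0 0 := ⟨[], by simp, by simp, by simp⟩

theorem Rep.mono {x : A} {s t : ℝ} (h : Rep S x s) (hs : s ≤ t) : Rep S x t :=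
  let ⟨l, h1, h2, h3⟩ := h
  ⟨l, h1, h2, h3.trans hs⟩

theorem Rep.add {x y : A} {s t : ℝ} (h : Rep S x s) (h' : Rep S y t) : Rep S (x + y) (s + t) := by
  obtain ⟨l, h1, h2, h3⟩ := h
  obtain ⟨m, k1, k2, k3⟩ := h'
  refine ⟨l ++ m, fun p hp => (List.mem_append.1 hp).elim (h1 p) (k1 p), by simp [h2, k2], ?_⟩
  simpa using add_le_add h3 k3

theorem Rep.mul {x y : A} (hx : x ∈ S) (hy : y ∈ S) : Rep S (x * y) (‖x‖ * ‖y‖) :=
  ⟨[(x, y)], by simp [hx, hy], by simp, by simp⟩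

theorem Rep.ind {P : A → ℝ → Prop} (h0 : P 0 0) (hm : ∀ x s t, P x s → s ≤ t → P x t)
    (h1 : ∀ a ∈ S, ∀ b ∈ S, ∀ x t, P x t → P (a * b + x) (‖a‖ * ‖b‖ + t)) {x : A} {t : ℝ}
    (h : Rep S x t) : P x t := by
  obtain ⟨l, k1, rfl, k3⟩ := h
  refine hm _ _ _ ?_ k3
  clear k3
  induction l with
  | nil => simpa using h0
  | cons p l ih =>
    simp only [List.map_cons, List.sum_cons]
    exact h1 _ (k1 p (by simp)).1 _ (k1 p (by simp)).2 _ _ (ih fun q hq => k1 q (by simp [hq]))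

theorem Rep.norm_le {x : A} {t : ℝ} (h : Rep S x t) : ‖x‖ ≤ t :=
  h.ind (P := fun x t => ‖x‖ ≤ t) (by simp) (fun _ _ _ h1 h2 => h1.trans h2)
    fun a _ b _ x _ h => (norm_add_le _ _).trans (add_le_add (norm_mul_le a b) h)

end

/-- The span of products of elements of the augmentation ideal. -/
noncomputable def Dat.P (D : Dat C) : Submodule ℂ C :=
  Submodule.span ℂ {x | ∃ a ∈ D.K, ∃ b ∈ D.K, a * b = x}

theorem P_le {p : C} (hp : p ∈ D.P) : D.ε p = 0 := by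
  refine Submodule.span_le (p := D.K) |>.2 ?_ hp
  rintro _ ⟨a, ha, b, -, rfl⟩
  exact Dat.mem_K.2 (by rw [map_mul, Dat.mem_K.1 ha, zero_mul])

theorem P_mul {a b : C} (ha : D.ε a = 0) (hb : D.ε b = 0) : a * b ∈ D.P :=
  Submodule.subset_span ⟨a, ha, b, hb, rfl⟩

theorem prod_form (a b : Alg D e) :
    (a * b).f - (2⁻¹ * D.ε a.g * D.ε b.g) • D.s ∈ D.P := by
  have h : (a * b).f - (2⁻¹ * D.ε a.g * D.ε b.g) • D.s = (2⁻¹ : ℂ) • (a.f * b.f +
      D.s * (a.g * b.g - algebraMap ℂ C (D.ε a.g * D.ε b.g))) := by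
    simp only [mul_f, Algebra.smul_def, map_mul]
    ring
  rw [h]
  exact D.P.smul_mem _ (add_mem (P_mul a.ε_f b.ε_f) (P_mul D.ε_s (by simp)))

theorem rep_lift {p : C} {t : ℝ} (h : Rep (D.K : Set C) p t) (x : Alg D e) (h1 : x.f = p)
    (h2 : x.g = 0) (h3 : x.l = 0) : Rep univ x (2 * t) := by
  refine h.ind (P := fun p t => ∀ x : Alg D e, x.f = p → x.g = 0 → x.l = 0 → Rep univ x (2 * t))
    (fun x h1 h2 h3 => ?_) (fun p s t h hs x h1 h2 h3 => (h x h1 h2 h3).mono (by linarith))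
    (fun a ha b hb p t h x h1 h2 h3 => ?_) x h1 h2 h3
  · rw [Alg.ext (b := 0) h1 h2 h3, mul_zero]
    exact Rep.zero
  · obtain ⟨u, hu⟩ : ∃ u : Alg D e, u = mk ((2 : ℂ) • a) (D.K.smul_mem _ ha) 0 0 := ⟨_, rfl⟩
    obtain ⟨v, hv⟩ : ∃ v : Alg D e, v = mk b hb 0 0 := ⟨_, rfl⟩
    have := (Rep.mul (mem_univ u) (mem_univ v)).add (h (x - u * v)
      (by simp [h1, hu, hv, mul_f, smul_smul]) (by simp [h2, hu, hv, mul_g])
      (by simp [h3, hu, hv, mul_l]))
    rw [add_sub_cancel] at this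
    refine this.mono (le_of_eq ?_)
    simp [hu, hv, norm_def, norm_smul]
    ring

theorem propS [NormOneClass C] (hP : ∀ p ∈ D.P, Rep (D.K : Set C) p (2 * ‖p‖))
    {e : Metric.closedBall (0 : ℂ) 1} (he : e.1 = 1) (x : Alg D e)
    (hx : x ∈ Submodule.span ℂ {x : Alg D e | ∃ a b, a * b = x}) : Rep univ x (12 * ‖x‖) := by
  have h1 : D.ε x.g = 0 ∧ x.f - x.l • D.s ∈ D.P := by
    induction hx using Submodule.span_induction with
    | mem x h =>
      obtain ⟨a, b, rfl⟩ := h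
      exact ⟨ε_mul_g a b, by simpa [mul_l, he] using prod_form a b⟩
    | zero => simp
    | add x y _ _ hx hy =>
      refine ⟨by simp [hx.1, hy.1], ?_⟩
      convert add_mem hx.2 hy.2 using 1
      simp only [add_f, add_l, add_smul]
      abel
    | smul c x _ hx =>
      refine ⟨by simp [hx.1], ?_⟩
      convert D.P.smul_mem c hx.2 using 1
      simp only [smul_f, smul_l, smul_sub, smul_smul, smul_eq_mul]
  obtain ⟨o, ho⟩ : ∃ o : Alg D e, o = mk 0 (map_zero _) 1 0 := ⟨_, rfl⟩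
  obtain ⟨u, hu⟩ : ∃ u : Alg D e, u = mk ((2 : ℂ) • x.g) (by simp [h1.1]) 0 0 := ⟨_, rfl⟩
  have no : ‖o‖ = 1 := by simp [ho, norm_def]
  have := ((Rep.mul (mem_univ ((2 * x.l) • o)) (mem_univ o)).add
    (Rep.mul (mem_univ u) (mem_univ o))).add (rep_lift (hP _ h1.2)
      (x - ((2 * x.l) • o * o + u * o)) (by simp [ho, hu, mul_f, smul_smul])
      (by simp [ho, hu, mul_g, smul_smul]) (by simp [ho, hu, mul_l, he]))
  rw [add_sub_cancel] at this
  refine this.mono ?_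
  have a1 : ‖u‖ = 2 * ‖x.g‖ := by simp [hu, norm_def, norm_smul]
  have a2 : ‖x.f - x.l • D.s‖ ≤ ‖x‖ + ‖x‖ := by
    refine (norm_sub_le _ _).trans (add_le_add (f_le x) ?_)
    rw [norm_smul]
    exact (mul_le_of_le_one_right (norm_nonneg _) D.s_le).trans (l_le x)
  rw [norm_smul, no, a1, norm_mul, Complex.norm_ofNat]
  linarith [g_le x, l_le x]

theorem not_propS [NormOneClass C] (h1 : D.s ∉ D.P) (h2 : D.s ∈ closure (D.P : Set C))
    (hP : ∀ p ∈ D.P, ∃ t, Rep (D.K : Set C) p t) [Subsingleton E] (K : ℝ) :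
    ¬ ∀ x ∈ Submodule.span ℂ {x : Alg D e | ∃ a b, a * b = x}, Rep univ x (K * ‖x‖) := by
  intro h
  obtain ⟨p, hp, hd⟩ := Metric.mem_closure_iff.1 h2 (1 / (|K| + 1)) (by positivity)
  obtain ⟨x, hx⟩ : ∃ x : Alg D e, x = mk (D.s - p) (by simp [D.ε_s, P_le hp]) 0 0 := ⟨_, rfl⟩
  obtain ⟨o, ho⟩ : ∃ o : Alg D e, o = mk 0 (map_zero _) 1 0 := ⟨_, rfl⟩
  obtain ⟨t, ht⟩ := hP _ (D.P.neg_mem hp)
  have m1 : x - (2 : ℂ) • (o * o) ∈ Submodule.span ℂ {x : Alg D e | ∃ a b, a * b = x} :=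
    (rep_lift ht _ (by simp [hx, ho, mul_f, smul_smul]) (by simp [hx, ho, mul_g])
      (Subsingleton.elim _ _)).ind
      (P := fun x _ => x ∈ Submodule.span ℂ {x : Alg D e | ∃ a b, a * b = x}) (zero_mem _)
      (fun _ _ _ h _ => h) fun a _ b _ _ _ h => add_mem (Submodule.subset_span ⟨a, b, rfl⟩) h
  have m2 := add_mem m1 (Submodule.smul_mem _ (2 : ℂ) (Submodule.subset_span ⟨o, o, rfl⟩))
  rw [sub_add_cancel] at m2
  obtain ⟨c, c1, c2⟩ := (h x m2).ind (P := fun x t => ∃ c : ℂ, ‖c‖ ≤ t ∧ x.f - c • D.s ∈ D.P)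
    ⟨0, by simp, by simp⟩ (fun _ _ _ ⟨c, c1, c2⟩ h => ⟨c, c1.trans h, c2⟩)
    fun a _ b _ x t ⟨c, c1, c2⟩ => ⟨2⁻¹ * D.ε a.g * D.ε b.g + c, by
      refine (norm_add_le _ _).trans (add_le_add ?_ c1)
      rw [norm_mul, norm_mul, norm_inv, Complex.norm_ofNat]
      have h1 := mul_le_mul ((D.ε_le _).trans (g_le a)) ((D.ε_le _).trans (g_le b))
        (norm_nonneg _) (norm_nonneg _)
      have h3 : 0 ≤ ‖D.ε a.g‖ * ‖D.ε b.g‖ := by positivity
      linarith, by
      convert add_mem (prod_form a b) c2 using 1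
      simp only [add_f, add_smul]
      abel⟩
  have nx : ‖x‖ = dist D.s p := by simp [hx, norm_def, dist_eq_norm]
  have c3 : ‖c‖ < 1 := by
    rw [lt_div_iff₀ (by positivity), ← nx] at hd
    nlinarith [le_abs_self K, norm_nonneg x]
  have c4 : 1 - c ≠ 0 := fun h => by
    rw [← sub_eq_zero.1 h, norm_one] at c3
    exact lt_irrefl _ c3
  refine h1 ((D.P.smul_mem_iff c4).1 ?_)
  convert add_mem c2 hp using 1
  simp only [hx, mk_f, sub_smul, one_smul]
  abel

theorem rad_iff (hs : ∀ g, D.s * g = 0 → g = 0)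
    (hχ : ∀ g, (∀ χ : C →ₐ[ℂ] ℂ, χ g = 0) → g = 0) (a : Alg D e) :
    (a : Unitization ℂ (Alg D e)) ∈ Ring.jacobson (Unitization ℂ (Alg D e)) ↔
      a.f = 0 ∧ a.g = 0 := by
  rw [Ring.jacobson_eq_sInf_isMaximal, Ideal.mem_sInf]
  constructor
  · intro h
    have k : ∀ (χ : C →ₐ[ℂ] ℂ) (w : ℂ), w ^ 2 = χ D.s → χ a.f + w * χ a.g = 0 := fun χ w hw => by
      let Φ : Alg D e →ₙₐ[ℂ] ℂ :=
        { toFun := fun a => 2⁻¹ * (χ a.f + w * χ a.g)
          map_smul' := fun c a => by simp; ring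
          map_zero' := by simp
          map_add' := fun a b => by simp; ring
          map_mul' := fun a b => by simp [mul_f, mul_g, ← hw]; ring }
      have m : (RingHom.ker (Unitization.lift Φ)).IsMaximal :=
        RingHom.ker_isMaximal_of_surjective _ fun z => ⟨algebraMap ℂ _ z, by simp⟩
      have := h m
      rw [RingHom.mem_ker] at this
      simpa [Φ] using this
    have k2 : ∀ χ : C →ₐ[ℂ] ℂ, χ a.f = 0 ∧ χ (D.s * a.g) = 0 := fun χ => by
      obtain ⟨w, hw⟩ := IsAlgClosed.exists_pow_nat_eq (χ D.s) two_pos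
      have k3 := k χ w hw
      have k4 := k χ (-w) (by rw [neg_sq, hw])
      refine ⟨by linear_combination (k3 + k4) / 2, ?_⟩
      rw [map_mul, ← hw]
      linear_combination w * (k3 - k4) / 2
    exact ⟨hχ _ fun χ => (k2 χ).1, hs _ (hχ _ fun χ => (k2 χ).2)⟩
  · rintro ⟨h1, h2⟩ I hI
    have hI' : I.IsMaximal := hI
    refine hI'.isPrime.mem_of_pow_mem 2 ?_
    have : a * a = 0 := Alg.ext (by simp [mul_f, h1, h2]) (by simp [mul_g, h1, h2])
      (by simp [mul_l, h2])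
    rw [sq, ← Unitization.inr_mul, this, Unitization.inr_zero]
    exact zero_mem _

end Pool.Agent.H.MP_a0c03c_an
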