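import Pool.Agent.H.MP_a0c03c_an.A

set_option autoImplicit false
open Set Filter Topology ArithmeticFunction

namespace Pool.Agent.H.MP_a0c03c_an

theorem lhs {f : ArithmeticFunction ℂ} {a : ℂ} : LSeriesHasSum f 0 a ↔ HasSum f a := by
  have : LSeries.term f 0 = f := funext fun n => by simp [LSeries.term_def₀]
  rw [LSeriesHasSum, this]

theorem conv {f g : ArithmeticFunction ℂ} {a b : ℝ} (hf : HasSum (fun n => ‖f n‖) a)
    (hg : HasSum (fun n => ‖g n‖) b) :
    HasSum (fun n : ℕ => ∑ p ∈ n.divisorsAntidiagonal, ‖f p.1‖ * ‖g p.2‖) (a * b) := by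
  have := lhs.1 (LSeriesHasSum_mul (f := ⟨fun n => (‖f n‖ : ℂ), by simp⟩)
    (g := ⟨fun n => (‖g n‖ : ℂ), by simp⟩) (lhs.2 (Complex.hasSum_ofReal.2 hf))
    (lhs.2 (Complex.hasSum_ofReal.2 hg)))
  rw [← Complex.hasSum_ofReal]
  convert this using 1
  · ext n
    simp [mul_apply]
  · simp

theorem mul_le (f g : ArithmeticFunction ℂ) (n : ℕ) :
    ‖(f * g) n‖ ≤ ∑ p ∈ n.divisorsAntidiagonal, ‖f p.1‖ * ‖g p.2‖ := by
  rw [mul_apply]
  exact (norm_sum_le _ _).trans (le_of_eq (by simp))

theorem one_sum : HasSum (fun n => ‖(1 : ArithmeticFunction ℂ) n‖) 1 := by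
  simpa using hasSum_single (f := fun n => ‖(1 : ArithmeticFunction ℂ) n‖) 1 fun n hn => by
    simp [hn]

noncomputable def Sub : Subalgebra ℂ (ArithmeticFunction ℂ) where
  carrier := {f | Summable fun n => ‖f n‖}
  mul_mem' {f g} hf hg := Summable.of_nonneg_of_le (fun _ => norm_nonneg _) (mul_le f g)
    (conv hf.hasSum hg.hasSum).summable
  add_mem' {f g} hf hg := Summable.of_nonneg_of_le (fun _ => norm_nonneg _)
    (fun n => norm_add_le (f n) (g n)) (Summable.add hf hg)
  algebraMap_mem' c := by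
    simpa [Algebra.algebraMap_eq_smul_one] using one_sum.summable.mul_left ‖c‖

def W : Type := Sub

noncomputable instance : CommRing W := inferInstanceAs (CommRing Sub)
noncomputable instance : Algebra ℂ W := inferInstanceAs (Algebra ℂ Sub)

noncomputable def co (n : ℕ) : W →ₗ[ℂ] ℂ where
  toFun f := (f : Sub).1 n
  map_add' _ _ := rfl
  map_smul' _ _ := rfl

theorem co_mul (f g : W) (n : ℕ) :
    co n (f * g) = ∑ p ∈ n.divisorsAntidiagonal, co p.1 f * co p.2 g :=
  mul_apply (f := (f : Sub).1) (g := (g : Sub).1)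

theorem co_zero (f : W) : co 0 f = 0 := (f : Sub).1.map_zero

theorem W_ext {f g : W} (h : ∀ n, co n f = co n g) : f = g :=
  Subtype.ext (ArithmeticFunction.ext h)

theorem co_sum (f : W) : Summable fun n => ‖co n f‖ := (f : Sub).2

noncomputable def toL : W →ₗ[ℂ] lp (fun _ : ℕ => ℂ) 1 where
  toFun f := ⟨fun n => co n f, memℓp_gen (by simpa using co_sum f)⟩
  map_add' _ _ := rfl
  map_smul' _ _ := rfl

theorem toL_inj : Function.Injective toL := fun _ _ h =>
  W_ext fun n => congrFun (congrArg Subtype.val h) n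

noncomputable instance : NormedAddCommGroup W := NormedAddCommGroup.induced _ _ toL toL_inj

theorem hasSum_co (f : W) : HasSum (fun n => ‖co n f‖) ‖f‖ := by
  have := lp.hasSum_norm (p := 1) (by simp) (toL f)
  simp only [ENNReal.toReal_one, Real.rpow_one] at this
  exact this

noncomputable instance : NormedCommRing W where
  __ := (inferInstance : NormedAddCommGroup W)
  __ := (inferInstance : CommRing W)
  norm_mul_le f g := hasSum_le (mul_le (f : Sub).1 (g : Sub).1) (hasSum_co (f * g))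
    (conv (hasSum_co f) (hasSum_co g))

noncomputable instance : NormedAlgebra ℂ W where
  norm_smul_le c f := by
    change ‖toL (c • f)‖ ≤ ‖c‖ * ‖toL f‖
    rw [map_smul, norm_smul]

instance : NormOneClass W := ⟨(hasSum_co 1).unique one_sum⟩

noncomputable def mkW (f : ℕ → ℂ) (h0 : f 0 = 0) (h : Summable fun n => ‖f n‖) : W :=
  (⟨⟨f, h0⟩, h⟩ : Sub)

@[simp] theorem co_mkW (f : ℕ → ℂ) (h0 : f 0 = 0) (h : Summable fun n => ‖f n‖) (n : ℕ) :
    co n (mkW f h0 h) = f n := rfl

instance : CompleteSpace W := by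
  have iso : Isometry toL := AddMonoidHomClass.isometry_of_norm _ fun _ => rfl
  refine iso.isUniformInducing.completeSpace (IsClosed.isComplete ?_)
  have : range toL = {x | x 0 = 0} := by
    ext x
    refine ⟨?_, fun hx => ⟨mkW x hx (by simpa using (lp.memℓp x).summable (by simp)), rfl⟩⟩
    rintro ⟨f, rfl⟩
    exact co_zero f
  rw [this]
  exact isClosed_eq (lp.evalCLM ℂ (fun _ : ℕ => ℂ) 1 0).continuous continuous_const

theorem co_le (n : ℕ) (f : W) : ‖co n f‖ ≤ ‖f‖ :=
  le_hasSum (hasSum_co f) n fun _ _ => norm_nonneg _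

theorem co_one (n : ℕ) : co n 1 = if n = 1 then 1 else 0 := one_apply

theorem lsum (f : W) {x : ℝ} (hx : 0 ≤ x) : LSeriesSummable (f : Sub).1 x :=
  (lhs.2 (co_sum f).of_norm.hasSum).LSeriesSummable.of_re_le_re (by simpa using hx)

noncomputable def chi (x : ℝ) (hx : 0 ≤ x) : W →ₐ[ℂ] ℂ :=
  AlgHom.ofLinearMap
    { toFun := fun f => LSeries (f : Sub).1 x
      map_add' := fun f g => LSeries_add (lsum f hx) (lsum g hx)
      map_smul' := fun c f => LSeries_smul (f : Sub).1 c x }
    (by
      change LSeries (fun n => (1 : ArithmeticFunction ℂ) n) x = 1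
      rw [one_eq_delta, LSeries_delta, Pi.one_apply])
    fun f g => LSeries_mul' (lsum f hx) (lsum g hx)

theorem sep (g : W) (h : ∀ χ : W →ₐ[ℂ] ℂ, χ g = 0) : g = 0 := by
  have h1 := (LSeries_eventually_eq_zero_iff' (f := (g : Sub).1)).1
    ((eventually_ge_atTop 0).mono fun x hx => h (chi x hx))
  refine W_ext fun n => ?_
  rcases eq_or_ne n 0 with rfl | hn
  · simp [co_zero]
  · exact h1.resolve_right ((lsum g le_rfl).abscissaOfAbsConv_le.trans_lt
      (EReal.coe_lt_top _)).ne n hn

open Classical in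
noncomputable def sf (n : ℕ) : ℂ := if ∃ p, p.Prime ∧ p * p = n then 1 / 2 / 2 ^ n else 0

theorem sf_le (n : ℕ) : ‖sf n‖ ≤ 1 / 2 / 2 ^ n := by
  unfold sf
  split_ifs
  · simp
  · rw [norm_zero]
    positivity

theorem sf_ne {n : ℕ} : sf n ≠ 0 ↔ ∃ p, p.Prime ∧ p * p = n := by
  unfold sf
  split_ifs with h <;> simp [h]

noncomputable def sW : W := mkW sf (by
    by_contra h
    obtain ⟨p, hp, h⟩ := sf_ne.1 h
    exact mul_ne_zero hp.ne_zero hp.ne_zero h)
  (Summable.of_nonneg_of_le (fun _ => norm_nonneg _) sf_le (summable_geometric_two' 1))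

theorem four_le {n : ℕ} (h : sf n ≠ 0) : 4 ≤ n := by
  obtain ⟨p, hp, rfl⟩ := sf_ne.1 h
  exact Nat.mul_le_mul hp.two_le hp.two_le

noncomputable def D : Dat W where
  ε := AlgHom.ofLinearMap (co 1) (by simp [co_one]) fun f g => by simp [co_mul]
  s := sW
  ε_le := co_le 1
  ε_s := by
    by_contra h
    exact absurd (four_le h) (by norm_num)
  s_le := hasSum_le sf_le (hasSum_co sW) (hasSum_geometric_two' 1)

theorem D_ε (f : W) : D.ε f = co 1 f := rfl
theorem D_s (n : ℕ) : co n D.s = sf n := rfl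

theorem nzd (g : W) (h : D.s * g = 0) : g = 0 := by
  refine W_ext fun n => ?_
  rw [_root_.map_zero]
  induction n using Nat.strong_induction_on with
  | _ n ih =>
    rcases eq_or_ne n 0 with rfl | hn
    · exact co_zero g
    have h1 := congrArg (co (4 * n)) h
    rw [co_mul, _root_.map_zero, Finset.sum_eq_single_of_mem (4, n) (by simp [hn])] at h1
    · exact (mul_eq_zero.1 h1).resolve_left (sf_ne.2 ⟨2, Nat.prime_two, rfl⟩)
    · rintro ⟨a, b⟩ hab hne
      by_cases ha : sf a = 0
      · simp [D_s, ha]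
      have h4 := four_le ha
      have h5 : a * b = 4 * n := (Nat.mem_divisorsAntidiagonal.1 hab).1
      refine mul_eq_zero_of_right _ (ih b ?_)
      by_contra hb
      have h6 : a = 4 := by
        by_contra h7
        have : 5 * n ≤ a * b := Nat.mul_le_mul (by omega) (not_lt.1 hb)
        omega
      subst h6
      exact hne (by rw [show b = n by omega])

end Pool.Agent.H.MP_a0c03c_an
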