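import Pool.Agent.H.MP_a0c03c_an.B

set_option autoImplicit false
open Set Filter Topology

namespace Pool.Agent.H.MP_a0c03c_an

noncomputable def dl (n : ℕ) : W := mkW (fun m => if m = n ∧ n ≠ 0 then 1 else 0) (by
    rcases eq_or_ne n 0 with h | h <;> simp [h, eq_comm])
  (summable_of_ne_finset_zero (s := {n}) fun m hm => by simp [Finset.notMem_singleton.1 hm])

theorem co_dl (m n : ℕ) : co m (dl n) = if m = n ∧ n ≠ 0 then 1 else 0 := rfl

theorem dl_le (n : ℕ) : ‖dl n‖ ≤ 1 := by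
  rw [(hasSum_co (dl n)).unique (hasSum_single n fun m hm => by simp [co_dl, hm]), co_dl]
  split_ifs <;> simp

theorem dl_mul {a b : ℕ} (ha : a ≠ 0) (hb : b ≠ 0) : dl a * dl b = dl (a * b) := by
  refine W_ext fun n => ?_
  have : ∀ p : ℕ × ℕ, co p.1 (dl a) * co p.2 (dl b) = if p = (a, b) then 1 else 0 := fun p => by
    simp [co_dl, ha, hb, Prod.ext_iff, ite_and]
    split_ifs <;> rfl
  simp only [co_mul, this, Finset.sum_ite_eq', Nat.mem_divisorsAntidiagonal]
  rw [co_dl]
  refine if_congr ⟨fun h => ⟨h.1.symm, mul_ne_zero ha hb⟩, fun h => ⟨h.1.symm, h.1 ▸ h.2⟩⟩ rfl rfl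

noncomputable def tr (N : ℕ) (f : W) : W := ∑ n ∈ Finset.range N, co n f • dl n

theorem co_tr (N m : ℕ) (f : W) : co m (tr N f) = if m < N then co m f else 0 := by
  have : ∀ n, co m (co n f • dl n) = if n = m then co m f else 0 := fun n => by
    rw [map_smul, co_dl]
    by_cases h : n = m
    · subst h
      by_cases h0 : n = 0 <;> simp [h0, co_zero]
    · simp [h, Ne.symm h]
  simp only [tr, map_sum, this, Finset.sum_ite_eq', Finset.mem_range]

theorem tr_lim (f : W) : Tendsto (fun N => ‖f - tr N f‖) atTop (𝓝 0) := by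
  refine (tendsto_sum_nat_add fun n => ‖co n f‖).congr fun N => ?_
  rw [← (hasSum_co (f - tr N f)).tsum_eq, ← (co_sum (f - tr N f)).sum_add_tsum_nat_add N,
    Finset.sum_eq_zero fun n hn => by simp [co_tr, Finset.mem_range.1 hn], zero_add]
  simp [co_tr]

def Fs (y : W) : Prop := ∃ M, ∀ n, M ≤ n → co n y = 0

def Nc (y : W) : Prop := ∀ n, co n y ≠ 0 → ∃ a b, 2 ≤ a ∧ 2 ≤ b ∧ a * b = n

theorem rep_fs {y : W} (h1 : Fs y) (h2 : Nc y) : Rep (D.K : Set W) y ‖y‖ := by
  obtain ⟨M, hM⟩ := h1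
  have e : tr M y = y := W_ext fun n => by
    rw [co_tr]
    split_ifs with h
    · rfl
    · exact (hM n (not_lt.1 h)).symm
  have k : ∀ N, Rep (D.K : Set W) (tr N y) (∑ n ∈ Finset.range N, ‖co n y‖) := fun N => by
    induction N with
    | zero => simpa [tr] using Rep.zero
    | succ N ih =>
      rw [tr, Finset.sum_range_succ, Finset.sum_range_succ]
      refine ih.add ?_
      by_cases h : co N y = 0
      · simpa [h] using Rep.zero
      obtain ⟨a, b, ha, hb, rfl⟩ := h2 N h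
      have m : ∀ a, 2 ≤ a → dl a ∈ D.K := fun a ha => Dat.mem_K.2 (by
        rw [D_ε, co_dl, if_neg (by omega)])
      rw [← dl_mul (by omega) (by omega), ← smul_mul_assoc]
      refine (Rep.mul (D.K.smul_mem _ (m a ha)) (m b hb)).mono ?_
      rw [norm_smul, mul_assoc]
      exact mul_le_of_le_one_right (norm_nonneg _)
        (mul_le_one₀ (dl_le a) (norm_nonneg _) (dl_le b))
  have := k M
  rw [e] at this
  exact this.mono (sum_le_hasSum _ (fun _ _ => norm_nonneg _) (hasSum_co y))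

theorem two_le {f : W} (hf : f ∈ D.K) {a : ℕ} (h : co a f ≠ 0) : 2 ≤ a := by
  by_contra ha
  obtain rfl | rfl : a = 0 ∨ a = 1 := by omega
  · exact h (co_zero f)
  · exact h hf

theorem nc_mul {f g : W} (hf : f ∈ D.K) (hg : g ∈ D.K) : Nc (f * g) := fun n hn => by
  rw [co_mul] at hn
  obtain ⟨p, hp, h⟩ := Finset.exists_ne_zero_of_sum_ne_zero hn
  exact ⟨p.1, p.2, two_le hf (left_ne_zero_of_mul h), two_le hg (right_ne_zero_of_mul h),
    (Nat.mem_divisorsAntidiagonal.1 hp).1⟩

theorem tr_K {f : W} (hf : f ∈ D.K) (N : ℕ) : tr N f ∈ D.K := Dat.mem_K.2 (by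
  rw [D_ε, co_tr]
  split_ifs
  · exact hf
  · rfl)

theorem fs_mul (N : ℕ) (f g : W) : Fs (tr N f * tr N g) := by
  refine ⟨N * N + 1, fun n hn => ?_⟩
  rw [co_mul]
  refine Finset.sum_eq_zero fun p hp => ?_
  rw [co_tr, co_tr]
  split_ifs with h1 h2
  · have := Nat.mul_le_mul h1.le h2.le
    rw [(Nat.mem_divisorsAntidiagonal.1 hp).1] at this
    omega
  all_goals simp

theorem rep_smul {x : W} {t : ℝ} (c : ℂ) (h : Rep (D.K : Set W) x t) :
    Rep (D.K : Set W) (c • x) (‖c‖ * t) :=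
  h.ind (P := fun x t => Rep (D.K : Set W) (c • x) (‖c‖ * t)) (by simpa using Rep.zero)
    (fun _ _ _ h hs => h.mono (mul_le_mul_of_nonneg_left hs (norm_nonneg _)))
    fun a ha b hb x t h => by
      have := (Rep.mul (D.K.smul_mem c ha) hb).add h
      rwa [smul_mul_assoc, ← smul_add, norm_smul, mul_assoc, ← mul_add] at this

theorem approx {p : W} (hp : p ∈ D.P) :
    ∀ η > 0, ∃ y, Fs y ∧ Nc y ∧ Rep (D.K : Set W) (p - y) η := by
  induction hp using Submodule.span_induction with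
  | mem x h =>
    obtain ⟨f, hf, g, hg, rfl⟩ := h
    intro η hη
    have h1 : Tendsto (fun N => ‖f - tr N f‖ * ‖g‖ + (‖f‖ + ‖f - tr N f‖) * ‖g - tr N g‖) atTop
        (𝓝 (0 * ‖g‖ + (‖f‖ + 0) * 0)) :=
      ((tr_lim f).mul_const _).add (((tr_lim f).const_add _).mul (tr_lim g))
    obtain ⟨N, hN⟩ := (h1.eventually (gt_mem_nhds (by simpa using hη))).exists
    refine ⟨_, fs_mul N f g, nc_mul (tr_K hf N) (tr_K hg N), ?_⟩
    have := (Rep.mul (D.K.sub_mem hf (tr_K hf N)) hg).add
      (Rep.mul (tr_K hf N) (D.K.sub_mem hg (tr_K hg N)))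
    rw [show (f - tr N f) * g + tr N f * (g - tr N g) = f * g - tr N f * tr N g by ring] at this
    refine this.mono (le_trans (add_le_add_right (mul_le_mul_of_nonneg_right ?_
      (norm_nonneg _)) _) hN.le)
    simpa using norm_sub_le f (f - tr N f)
  | zero => exact fun η hη => ⟨0, ⟨0, by simp⟩, fun n hn => by simp at hn,
      by simpa using Rep.zero.mono hη.le⟩
  | add x y _ _ hx hy =>
    intro η hη
    obtain ⟨a, ⟨M, a1⟩, a2, a3⟩ := hx _ (half_pos hη)
    obtain ⟨b, ⟨N, b1⟩, b2, b3⟩ := hy _ (half_pos hη)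
    refine ⟨a + b, ⟨M + N, fun n hn => by simp [a1 n (by omega), b1 n (by omega)]⟩,
      fun n hn => ?_, ?_⟩
    · by_cases h : co n a = 0
      · exact b2 n (by simpa [h] using hn)
      · exact a2 n h
    · have := a3.add b3
      rwa [add_halves, sub_add_sub_comm] at this
  | smul c x _ hx =>
    intro η hη
    obtain ⟨a, ⟨M, a1⟩, a2, a3⟩ := hx (η / (‖c‖ + 1)) (by positivity)
    refine ⟨c • a, ⟨M, fun n hn => by simp [a1 n hn]⟩,
      fun n hn => a2 n (right_ne_zero_of_mul (by simpa using hn : c * co n a ≠ 0)), ?_⟩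
    rw [← smul_sub]
    refine (rep_smul c a3).mono ?_
    rw [← mul_div_assoc, div_le_iff₀ (by positivity)]
    nlinarith

theorem hP (p : W) (hp : p ∈ D.P) : Rep (D.K : Set W) p (2 * ‖p‖) := by
  rcases eq_or_ne p 0 with rfl | h0
  · simpa using Rep.zero
  obtain ⟨y, y1, y2, y3⟩ := approx hp _ (half_pos (norm_pos_iff.2 h0))
  have := y3.add (rep_fs y1 y2)
  rw [sub_add_cancel] at this
  refine this.mono ?_
  have h1 := norm_sub_le p (p - y)
  rw [sub_sub_cancel] at h1
  linarith [y3.norm_le]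

theorem s_clos : D.s ∈ closure (D.P : Set W) := by
  refine mem_closure_of_tendsto (f := fun N => tr N D.s) (b := atTop)
    (tendsto_iff_norm_sub_tendsto_zero.2 ((tr_lim _).congr fun N => norm_sub_rev _ _))
    (Eventually.of_forall fun N => (rep_fs ⟨N, fun n hn => by simp [co_tr, hn]⟩ fun n hn => ?_).ind
      (P := fun x _ => x ∈ D.P) (zero_mem _) (fun _ _ _ h _ => h)
      fun a ha b hb _ _ h => add_mem (P_mul ha hb) h)
  rw [co_tr] at hn
  obtain ⟨p, hp, rfl⟩ := sf_ne.1 (show sf n ≠ 0 from fun h => hn (by simp [D_s, h]))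
  exact ⟨p, p, hp.two_le, hp.two_le, rfl⟩

theorem co_pq {f g : W} (hf : f ∈ D.K) (hg : g ∈ D.K) {p q : ℕ} (hp : p.Prime) (hq : q.Prime) :
    (if p = q then 2 else 1) * co (p * q) (f * g) = co p f * co q g + co q f * co p g := by
  have : co (p * q) (f * g) = ∑ x ∈ {(p, q), (q, p)}, co x.1 f * co x.2 g := by
    rw [co_mul]
    refine (Finset.sum_subset (fun x hx => ?_) fun x hx hx' => ?_).symm
    · rcases Finset.mem_insert.1 hx with rfl | hx
      · simp [hp.ne_zero, hq.ne_zero]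
      · simp [Finset.mem_singleton.1 hx, hp.ne_zero, hq.ne_zero, mul_comm]
    · by_contra h
      have a2 := two_le hf (left_ne_zero_of_mul h)
      have b2 := two_le hg (right_ne_zero_of_mul h)
      have e := (Nat.mem_divisorsAntidiagonal.1 hx).1
      refine hx' ?_
      rcases (Nat.Prime.dvd_mul hp).1 (e ▸ dvd_mul_right p q) with ⟨k, hk⟩ | ⟨k, hk⟩
      · rw [hk, mul_assoc, Nat.mul_right_inj hp.ne_zero] at e
        have h2 := (Nat.dvd_prime hq).1 (Dvd.intro_left k e) |>.resolve_left (by omega)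
        rw [h2, Nat.mul_eq_right hq.ne_zero] at e
        simp [Prod.ext_iff, hk, e, h2]
      · rw [hk, mul_left_comm, Nat.mul_right_inj hp.ne_zero] at e
        have h2 := (Nat.dvd_prime hq).1 (Dvd.intro k e) |>.resolve_left (by omega)
        rw [h2, Nat.mul_eq_left hq.ne_zero] at e
        simp [Prod.ext_iff, hk, e, h2]
  rw [this]
  by_cases h : p = q
  · subst h
    simp [two_mul]
  · rw [Finset.sum_pair (by simp [h]), if_neg h, one_mul]

theorem s_not : D.s ∉ D.P := by
  intro hs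
  have k : ∀ h ∈ D.P, ∃ V : Submodule ℂ (Nat.Primes → ℂ), V.FG ∧ ∀ q : Nat.Primes,
      (fun p : Nat.Primes => (if p.1 = q.1 then 2 else 1) * co (p.1 * q.1) h) ∈ V := by
    intro h hh
    induction hh using Submodule.span_induction with
    | mem x h =>
      obtain ⟨f, hf, g, hg, rfl⟩ := h
      refine ⟨Submodule.span ℂ {fun p => co p.1 f, fun p => co p.1 g},
        Submodule.fg_span (toFinite _), fun q => Submodule.mem_span_pair.2
          ⟨co q.1 g, co q.1 f, funext fun p => ?_⟩⟩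
      rw [co_pq hf hg p.2 q.2]
      simp [mul_comm]
    | zero => exact ⟨⊥, Submodule.fg_bot, fun q => by simp [funext_iff]⟩
    | add x y _ _ hx hy =>
      obtain ⟨V, V1, V2⟩ := hx
      obtain ⟨U, U1, U2⟩ := hy
      refine ⟨V ⊔ U, V1.sup U1, fun q => ?_⟩
      convert Submodule.add_mem_sup (V2 q) (U2 q) using 1
      ext p
      simp [mul_add]
    | smul c x _ hx =>
      obtain ⟨V, V1, V2⟩ := hx
      refine ⟨V, V1, fun q => ?_⟩
      convert V.smul_mem c (V2 q) using 1
      ext p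
      simp [mul_left_comm]
  obtain ⟨V, V1, V2⟩ := k _ hs
  have m : ∀ q : Nat.Primes, (Pi.single q 1 : Nat.Primes → ℂ) ∈ V := fun q => by
    have ne : 2 * sf (q.1 * q.1) ≠ 0 := mul_ne_zero two_ne_zero (sf_ne.2 ⟨q.1, q.2, rfl⟩)
    refine (V.smul_mem_iff ne).1 ?_
    convert V2 q using 1
    ext p
    by_cases h : p = q
    · simp [h, D_s]
    · have h' : p.1 ≠ q.1 := fun e => h (Subtype.ext e)
      have : sf (p.1 * q.1) = 0 := by
        by_contra h0
        obtain ⟨r, hr, e⟩ := sf_ne.1 h0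
        have h1 := (Nat.prime_dvd_prime_iff_eq p.2 hr).1
          (((Nat.Prime.dvd_mul p.2).1 (e ▸ dvd_mul_right p.1 q.1)).elim id id)
        have h2 := (Nat.prime_dvd_prime_iff_eq q.2 hr).1
          (((Nat.Prime.dvd_mul q.2).1 (e ▸ dvd_mul_left q.1 p.1)).elim id id)
        exact h' (h1.trans h2.symm)
      simp [h, D_s, this]
  have : Module.Finite ℂ V := Module.Finite.iff_fg.2 V1
  exact Module.Finite.not_linearIndependent_of_infinite (R := ℂ) (fun q => (⟨_, m q⟩ : V))
    (LinearIndependent.of_comp V.subtype (Pi.linearIndependent_single_one _ ℂ))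

end Pool.Agent.H.MP_a0c03c_an
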